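import Pool.Agent.Helper78.LK.Goals
import Pool.Agent.Helper50.KP.RED

/-! Packet TQ of project LK (captain helper78): replacement of tangles. -/

set_option autoImplicit false

namespace Pool.Agent.Helper75.LK

open Pool.Agent.Helper50.KP Pool.Agent.Helper78.LK

/-- The move. -/
def Mv (l r : Word) : Prop := Pl l r ∨ Pl r l ∨ Rd l r ∨ Rd r l

theorem Mv.symm {l r : Word} (h : Mv l r) : Mv r l := by
  rcases h with h | h | h | h
  · exact Or.inr (Or.inl h)
  · exact Or.inl h
  · exact Or.inr (Or.inr (Or.inr h))
  · exact Or.inr (Or.inr (Or.inl h))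

theorem pl_eq {l r : Word} (h : Pl l r) (m a b : ℕ) (ha : str l m = some a)
    (hb : str r m = some b) : a = b := by
  cases h <;> simp only [str_cons, str_nil, Kind.i, Kind.o] at ha hb <;>
    split_ifs at ha hb <;> simp only [Option.some.injEq] at ha hb <;> omega

theorem rd_eq {l r : Word} (h : Rd l r) (m a b : ℕ) (ha : str l m = some a)
    (hb : str r m = some b) : a = b := by
  cases h <;> simp only [str_cons, str_nil, Kind.i, Kind.o] at ha hb <;>
    split_ifs at ha hb <;> simp only [Option.some.injEq] at ha hb <;> omega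

theorem mv_eq {l r : Word} (h : Mv l r) (m a b : ℕ) (ha : str l m = some a)
    (hb : str r m = some b) : a = b := by
  rcases h with h | h | h | h
  · exact pl_eq h m a b ha hb
  · exact (pl_eq h m b a hb ha).symm
  · exact rd_eq h m a b ha hb
  · exact (rd_eq h m b a hb ha).symm

theorem str3 (u w v : Word) (n : ℕ) :
    str (u ++ w ++ v) n = ((str u n).bind (str w)).bind (str v) := by
  rw [gSTR.1, gSTR.1]

theorem ctx_eq {l r : Word} (h : Mv l r) (u v : Word) (n : ℕ)
    (h1 : (str (u ++ l ++ v) n).isSome) (h2 : (str (u ++ r ++ v) n).isSome) :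
    str (u ++ l ++ v) n = str (u ++ r ++ v) n := by
  rw [str3] at h1 h2 ⊢
  rw [str3]
  rcases hu : str u n with _ | m
  · rfl
  · rw [hu] at h1 h2
    simp only [Option.bind_some] at h1 h2 ⊢
    rcases hl : str l m with _ | a
    · rw [hl] at h1; simp at h1
    · rcases hr : str r m with _ | b
      · rw [hr] at h2; simp at h2
      · rw [mv_eq h m a b hl hr]

theorem tstep_symm {n : ℕ} {w w' : Word} (h : TStep n w w') : TStep n w' w := by
  obtain ⟨h1, h2, u, v, l, r, h3, h4, h5⟩ := h
  exact ⟨h2, h1, u, v, r, l, Mv.symm h3, h5, h4⟩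

theorem tstep_eq {n : ℕ} {w w' : Word} (h : TStep n w w') : str w n = str w' n := by
  obtain ⟨h1, h2, u, v, l, r, h3, h4, h5⟩ := h
  subst h4 h5
  exact ctx_eq h3 u v n h1 h2

theorem teq_eq {n : ℕ} {w w' : Word} (h : Teq n w w') : str w n = str w' n := by
  induction h with
  | refl => rfl
  | tail _ h ih => exact ih.trans (tstep_eq h)

theorem gTQ : TQ := by
  refine ⟨?_, ?_, ?_, ?_⟩
  · intro n w w' h
    refine ⟨?_, teq_eq h⟩
    induction h with
    | refl => exact Relation.ReflTransGen.refl
    | tail _ h ih => exact Relation.ReflTransGen.head (tstep_symm h) ih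
  · intro m n u v w w' hu hv h
    have key : ∀ c, str c n = str w n → (str (u ++ c ++ v) m).isSome := by
      intro c hc
      rw [str3, hu] at hv ⊢
      simp only [Option.bind_some] at hv ⊢
      rwa [hc]
    induction h with
    | refl => exact Relation.ReflTransGen.refl
    | @tail b c hb h ih =>
      refine Relation.ReflTransGen.tail ih ?_
      have e1 : str w n = str b n := teq_eq hb
      have e2 : str b n = str c n := tstep_eq h
      refine ⟨key b e1.symm, key c (e1.trans e2).symm, ?_⟩
      obtain ⟨_, _, u', v', l, r, h3, h4, h5⟩ := h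
      refine ⟨u ++ u', v' ++ v, l, r, h3, ?_, ?_⟩
      · rw [h4]; simp only [List.append_assoc]
      · rw [h5]; simp only [List.append_assoc]
  · intro w hw h
    have key : ∀ w', Teq 0 w w' → Relation.ReflTransGen Step w w' := by
      intro w' h
      induction h with
      | refl => exact Relation.ReflTransGen.refl
      | @tail b c hb h ih =>
        refine Relation.ReflTransGen.tail ih ?_
        have e1 : str w 0 = str b 0 := teq_eq hb
        have e2 : str b 0 = str c 0 := tstep_eq h
        refine ⟨e1.symm.trans hw, (e1.trans e2).symm.trans hw, ?_⟩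
        obtain ⟨_, _, h⟩ := h
        exact h
    exact key _ h
  · intro n u v l r h h1 h2
    exact Relation.ReflTransGen.single ⟨h1, h2, u, v, l, r, h, rfl, rfl⟩

end Pool.Agent.Helper75.LK
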